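import Pool.Agent.Lib.AbcB.Viol
import Pool.Agent.Lib.Pabc11.Final

/-!
# Violators and tall triples in a box of radicals
-/

open Finset Filter Topology

namespace Pool.Agent.Lib.AbcB

open Pool.Agent.Lib.Pabc2 Pool.Agent.Lib.Pabc1 Pool.Agent.Lib.Pabc8 Pool.Agent.Lib.AbcL
open Pool.Agent.Lib.Pabc10 (rr rr_pos)

theorem wt_eq {t : ℕ × ℕ} (hI : IsT t) (l : Fin 3) : wt t l = Real.log (rr (comp t l)) := by
  unfold wt rr
  rw [comp_primeFactors hI l]
  push_cast
  rw [Real.log_prod]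
  intro p hp
  exact_mod_cast (Nat.prime_of_mem_primeFactors (Finset.mem_filter.mp hp).1).ne_zero

theorem log_rd {t : ℕ × ℕ} : Real.log (rd t) = tw t := by
  unfold rd tw
  push_cast
  exact Real.log_prod (fun p hq => by
    exact_mod_cast (Nat.prime_of_mem_primeFactors hq).ne_zero)

/-- The side of the label `l` of the box. -/
def side (A B C : ℕ) (l : Fin 3) : ℕ := if l = 0 then A else if l = 1 then B else C

/-- The product of the two smallest sides. -/
noncomputable def DD (A B C : ℕ) : ℝ := (A : ℝ) * B * C / max (A : ℝ) (max (B : ℝ) C)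

theorem one_le_DD {A B C : ℕ} (hA : 1 ≤ A) (hB : 1 ≤ B) (hC : 1 ≤ C) : 1 ≤ DD A B C := by
  have hA' : (1 : ℝ) ≤ A := by exact_mod_cast hA
  have hB' : (1 : ℝ) ≤ B := by exact_mod_cast hB
  have hC' : (1 : ℝ) ≤ C := by exact_mod_cast hC
  unfold DD
  rw [le_div_iff₀ (lt_of_lt_of_le (by linarith) (le_max_left _ _)), one_mul]
  have h1 : (1 : ℝ) ≤ A * B := by nlinarith
  have h2 : (1 : ℝ) ≤ A * C := by nlinarith
  have h3 : (1 : ℝ) ≤ B * C := by nlinarith
  refine max_le ?_ (max_le ?_ ?_)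
  · nlinarith
  · nlinarith
  · nlinarith

theorem box_data {t : ℕ × ℕ} (hI : IsT t) {A B C : ℕ} (hA : rr t.1 ≤ A) (hB : rr t.2 ≤ B)
    (hC : rr (t.1 + t.2) ≤ C) :
    rd t ≤ A * B * C ∧ ∃ l : Fin 3, tw t - wt t l ≤ Real.log (DD A B C) := by
  have hA1 : 1 ≤ A := (rr_pos _).trans_le hA
  have hB1 : 1 ≤ B := (rr_pos _).trans_le hB
  have hC1 : 1 ≤ C := (rr_pos _).trans_le hC
  have hA' : (0 : ℝ) < A := by exact_mod_cast hA1
  have hB' : (0 : ℝ) < B := by exact_mod_cast hB1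
  have hC' : (0 : ℝ) < C := by exact_mod_cast hC1
  have e0 : wt t 0 ≤ Real.log A := by
    rw [wt_eq hI]
    apply Real.log_le_log
    · exact_mod_cast rr_pos _
    · exact_mod_cast hA
  have e1 : wt t 1 ≤ Real.log B := by
    rw [wt_eq hI]
    apply Real.log_le_log
    · exact_mod_cast rr_pos _
    · exact_mod_cast hB
  have e2 : wt t 2 ≤ Real.log C := by
    rw [wt_eq hI]
    apply Real.log_le_log
    · exact_mod_cast rr_pos _
    · exact_mod_cast hC
  have hsum := wt_sum t (i := 0) (j := 1) (s := 2) (by decide) (by decide) (by decide)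
  refine ⟨?_, ?_⟩
  · have h1 : Real.log (rd t) ≤ Real.log ((A * B * C : ℕ) : ℝ) := by
      rw [log_rd]
      push_cast
      rw [Real.log_mul (by positivity) hC'.ne', Real.log_mul hA'.ne' hB'.ne']
      linarith
    have h2 : (0 : ℝ) < rd t := by exact_mod_cast rd_pos t
    have h3 : (0 : ℝ) < ((A * B * C : ℕ) : ℝ) := by push_cast; positivity
    exact_mod_cast (Real.log_le_log_iff h2 h3).1 h1
  · unfold DD
    rcases max_cases (A : ℝ) (max (B : ℝ) C) with ⟨h, _⟩ | ⟨h, _⟩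
    · refine ⟨0, ?_⟩
      rw [h]
      have e : (A : ℝ) * B * C / A = B * C := by field_simp
      rw [e, Real.log_mul hB'.ne' hC'.ne']
      linarith
    · rcases max_cases (B : ℝ) (C : ℝ) with ⟨h', _⟩ | ⟨h', _⟩
      · refine ⟨1, ?_⟩
        rw [h, h']
        have e : (A : ℝ) * B * C / B = A * C := by field_simp
        rw [e, Real.log_mul hA'.ne' hC'.ne']
        linarith
      · refine ⟨2, ?_⟩
        rw [h, h']
        have e : (A : ℝ) * B * C / C = A * B := by field_simp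
        rw [e, Real.log_mul hA'.ne' hB'.ne']
        linarith

theorem DD_swap (A B C : ℕ) : DD B A C = DD A B C := by
  unfold DD
  rw [mul_comm (B : ℝ) A, max_left_comm]

theorem N_swap (t : ℕ × ℕ) : N t.swap = N t := by
  unfold N
  simp only [Prod.fst_swap, Prod.snd_swap]
  ring

theorem rd_swap (t : ℕ × ℕ) : rd t.swap = rd t := by
  unfold rd
  rw [N_swap]

theorem ht_swap (t : ℕ × ℕ) : ht t.swap = ht t := by
  unfold ht
  simp only [Prod.fst_swap, Prod.snd_swap]
  rw [add_comm]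

/-- The condition of a box. -/
def InBox (A B C : ℕ) (t : ℕ × ℕ) : Prop :=
  0 < t.1 ∧ 0 < t.2 ∧ Nat.Coprime t.1 t.2 ∧ rr t.1 ≤ A ∧ rr t.2 ≤ B ∧ rr (t.1 + t.2) ≤ C

theorem InBox.swap {A B C : ℕ} {t : ℕ × ℕ} (h : InBox A B C t) : InBox B A C t.swap := by
  obtain ⟨h1, h2, h3, h4, h5, h6⟩ := h
  refine ⟨h2, h1, h3.symm, h5, h4, ?_⟩
  simp only [Prod.fst_swap, Prod.snd_swap]
  rw [add_comm t.2 t.1]
  exact h6

/-- From ordered to unordered pairs. -/
theorem unordered {A B C : ℕ} {P : ℕ × ℕ → Prop} (hP : ∀ t, P t → P t.swap) {X : ℝ}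
    (h : ∀ A' B' : ℕ, (A' = A ∧ B' = B) ∨ (A' = B ∧ B' = A) → ∀ T : Finset (ℕ × ℕ),
      (∀ t ∈ T, IsT t ∧ InBox A' B' C t ∧ P t) → (T.card : ℝ) ≤ X)
    (T : Finset (ℕ × ℕ)) (hT : ∀ t ∈ T, InBox A B C t ∧ P t) : (T.card : ℝ) ≤ 2 * X := by
  classical
  have h1 := h A B (Or.inl ⟨rfl, rfl⟩) (T.filter (fun t => t.1 ≤ t.2)) (by
    intro t ht'
    rw [Finset.mem_filter] at ht'
    obtain ⟨a1, a2⟩ := hT t ht'.1
    exact ⟨⟨a1.1, ht'.2, a1.2.2.1⟩, a1, a2⟩)
  have h2 := h B A (Or.inr ⟨rfl, rfl⟩) ((T.filter (fun t => ¬ t.1 ≤ t.2)).image Prod.swap) (by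
    intro t ht'
    rw [Finset.mem_image] at ht'
    obtain ⟨s, hs, rfl⟩ := ht'
    rw [Finset.mem_filter] at hs
    obtain ⟨a1, a2⟩ := hT s hs.1
    refine ⟨⟨a1.2.1, ?_, a1.2.2.1.symm⟩, a1.swap, hP s a2⟩
    simp only [Prod.fst_swap, Prod.snd_swap]
    omega)
  rw [Finset.card_image_of_injective _ Prod.swap_injective] at h2
  have h3 : (T.card : ℝ) = (T.filter (fun t => t.1 ≤ t.2)).card +
      (T.filter (fun t => ¬ t.1 ≤ t.2)).card := by
    exact_mod_cast (Finset.card_filter_add_card_filter_not (s := T) _).symm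
  linarith

/-- The violators in a box. -/
theorem box_viol (ε : ℝ) (hε : 0 < ε) : ∃ K M : ℝ, 1 ≤ K ∧ 1 ≤ M ∧
    ∀ (A B C : ℕ) (T : Finset (ℕ × ℕ)), 1 ≤ A → 1 ≤ B → 1 ≤ C →
      (∀ t ∈ T, InBox A B C t ∧ M * Real.log (rd t) ≤ ht t) →
      (T.card : ℝ) ≤ K * Real.sqrt (DD A B C) * ((A : ℝ) * B * C) ^ ε := by
  obtain ⟨K, M, hK, hM, h⟩ := viol_isT ε hε
  refine ⟨2 * K, M, by linarith, hM, ?_⟩
  intro A B C T hA hB hC hT
  have h1 := unordered (A := A) (B := B) (C := C) (P := fun t => M * Real.log (rd t) ≤ ht t)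
    (X := K * Real.sqrt (DD A B C) * ((A : ℝ) * B * C) ^ ε) (fun t ht' => by
      rw [rd_swap, ht_swap]
      exact ht') (by
      intro A' B' hAB T' hT'
      have hD : DD A' B' C = DD A B C := by
        rcases hAB with ⟨rfl, rfl⟩ | ⟨rfl, rfl⟩
        · rfl
        · exact DD_swap _ _ _
      have hN : ((A' * B' * C : ℕ) : ℝ) = (A : ℝ) * B * C := by
        rcases hAB with ⟨rfl, rfl⟩ | ⟨rfl, rfl⟩
        · push_cast; ring
        · push_cast; ring
      have hpos : 1 ≤ A' * B' * C := by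
        rcases hAB with ⟨rfl, rfl⟩ | ⟨rfl, rfl⟩
        · exact Nat.mul_pos (Nat.mul_pos hA hB) hC
        · exact Nat.mul_pos (Nat.mul_pos hB hA) hC
      have h2 := h (A' * B' * C) (DD A B C) T' hpos (one_le_DD hA hB hC) (by
        intro t ht'
        obtain ⟨hI, hb, hv⟩ := hT' t ht'
        obtain ⟨g1, g2⟩ := box_data hI hb.2.2.2.1 hb.2.2.2.2.1 hb.2.2.2.2.2
        rw [hD] at g2
        exact ⟨hI, g1, hv, g2⟩)
      rw [hN] at h2
      exact h2) T hT
  refine h1.trans (le_of_eq ?_)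
  ring

/-- A member with radical at most `z`: the triple is small. -/
theorem small_box {t : ℕ × ℕ} (hI : IsT t) {z : ℝ} (l : Fin 3) (h : (rr (comp t l) : ℝ) ≤ z) :
    Pabc11.Small (1 / 2) z t := by
  unfold Pabc11.Small
  by_cases h1 : Real.log t.1 ≤ (1 - 1 / 2) * ht t
  · exact Or.inl h1
  · right
    push Not at h1
    refine ⟨l, comp t l, dvd_rfl, ?_, ?_⟩
    · unfold rr at h
      push_cast at h
      exact h
    · have h2 : t.1 ≤ comp t l := by
        have h3 := hI.2.1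
        unfold comp
        split_ifs
        · exact le_rfl
        · exact h3
        · omega
      have h4 : Real.log (t.1 : ℝ) ≤ Real.log (comp t l) := by
        apply Real.log_le_log
        · exact_mod_cast hI.1
        · exact_mod_cast h2
      linarith

/-- The tall triples in a box. -/
theorem box_tall (ε : ℝ) (hε : 0 < ε) : ∃ K : ℝ, 1 ≤ K ∧
    ∀ (A B C : ℕ) (T : Finset (ℕ × ℕ)), 1 ≤ A → 1 ≤ B → 1 ≤ C →
      (∀ t ∈ T, InBox A B C t ∧ ((A : ℝ) * B * C) ^ (K / Real.log (Real.log ((A : ℝ) * B * C))) ≤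
        ht t) →
      (T.card : ℝ) ≤ K * min (A : ℝ) (min (B : ℝ) C) * ((A : ℝ) * B * C) ^ ε := by
  classical
  obtain ⟨η, C0, hη, hC0, hev⟩ := Pabc11.main_shape ε (1 / 2) hε (by norm_num) (by norm_num)
  obtain ⟨K, hK, hsh⟩ := Pabc11.shape_of_tall η C0 hη hC0
  obtain ⟨n0, hn0⟩ := ((hev.and hsh).and (eventually_ge_atTop 16)).exists_forall_of_atTop
  obtain ⟨K0, hK0⟩ : ∃ K0 : ℝ, K0 = ((Pabc10.finite_rd n0).toFinset.card : ℝ) := ⟨_, rfl⟩
  have hK00 : 0 ≤ K0 := by rw [hK0]; exact Nat.cast_nonneg _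
  refine ⟨K + 2 * K0 + 1, by linarith, ?_⟩
  intro A B C T hA hB hC hT
  have hA' : (1 : ℝ) ≤ A := by exact_mod_cast hA
  have hB' : (1 : ℝ) ≤ B := by exact_mod_cast hB
  have hC' : (1 : ℝ) ≤ C := by exact_mod_cast hC
  obtain ⟨z, hz⟩ : ∃ z : ℝ, z = min (A : ℝ) (min (B : ℝ) C) := ⟨_, rfl⟩
  have hz1 : 1 ≤ z := by
    rw [hz]
    exact le_min hA' (le_min hB' hC')
  obtain ⟨R, hR⟩ : ∃ R : ℝ, R = (A : ℝ) * B * C := ⟨_, rfl⟩
  have hR1 : 1 ≤ R := by
    rw [hR]
    have h1 : (1 : ℝ) ≤ A * B := by nlinarith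
    nlinarith
  have hRe : (1 : ℝ) ≤ R ^ ε := Real.one_le_rpow hR1 hε.le
  have hzR : 1 ≤ z * R ^ ε := by nlinarith
  rw [← hz, ← hR]
  simp only [← hR] at hT
  have key := unordered (A := A) (B := B) (C := C)
    (P := fun t => R ^ ((K + 2 * K0 + 1) / Real.log (Real.log R)) ≤ ht t)
    (X := K0 + z * R ^ ε / 2) (fun t ht' => by
      rw [ht_swap]
      exact ht') (by
      intro A' B' hAB T' hT'
      have hN : ((A' * B' * C : ℕ) : ℝ) = R := by
        rw [hR]
        rcases hAB with ⟨rfl, rfl⟩ | ⟨rfl, rfl⟩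
        · push_cast; ring
        · push_cast; ring
      have hzz : min (A' : ℝ) (min (B' : ℝ) C) = z := by
        rw [hz]
        rcases hAB with ⟨rfl, rfl⟩ | ⟨rfl, rfl⟩
        · rfl
        · exact min_left_comm _ _ _
      rcases Nat.lt_or_ge (A' * B' * C) n0 with hlt | hge
      · have h1 : T' ⊆ (Pabc10.finite_rd n0).toFinset := by
          intro t ht'
          obtain ⟨hI, hb, _⟩ := hT' t ht'
          rw [Set.Finite.mem_toFinset]
          exact ⟨hI, (box_data hI hb.2.2.2.1 hb.2.2.2.2.1 hb.2.2.2.2.2).1.trans hlt.le⟩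
        have h2 : (T'.card : ℝ) ≤ K0 := by
          rw [hK0]
          exact_mod_cast Finset.card_le_card h1
        linarith
      · obtain ⟨⟨g1, g2⟩, g3⟩ := hn0 (A' * B' * C) hge
        have h1 := g1 z T' hz1 (by
          intro t ht'
          obtain ⟨hI, hb, hh⟩ := hT' t ht'
          refine ⟨hI, ?_, ?_⟩
          · rcases min_cases (A' : ℝ) (min (B' : ℝ) C) with ⟨h, _⟩ | ⟨h, _⟩
            · apply small_box hI 0
              rw [← hzz, h]
              exact_mod_cast hb.2.2.2.1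
            · rcases min_cases (B' : ℝ) (C : ℝ) with ⟨h', _⟩ | ⟨h', _⟩
              · apply small_box hI 1
                rw [← hzz, h, h']
                exact_mod_cast hb.2.2.2.2.1
              · apply small_box hI 2
                rw [← hzz, h, h']
                exact_mod_cast hb.2.2.2.2.2
          · apply g2 t hI (box_data hI hb.2.2.2.1 hb.2.2.2.2.1 hb.2.2.2.2.2).1
            rw [hN]
            refine le_trans ?_ hh
            apply Real.rpow_le_rpow_of_exponent_le hR1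
            have h16 : (16 : ℝ) ≤ R := by
              rw [← hN]
              exact_mod_cast g3
            have hll : 0 < Real.log (Real.log R) := by
              apply Real.log_pos
              rw [Real.lt_log_iff_exp_lt (by linarith)]
              have := Real.exp_one_lt_d9
              linarith
            exact div_le_div_of_nonneg_right (by linarith) hll.le)
        rw [hN] at h1
        linarith) T hT
  refine key.trans ?_
  nlinarith

end Pool.Agent.Lib.AbcB
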