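import Pool.Agent.Lib.Pabc14.CountT3H
import Pool.Agent.Lib.AbcL.Cases

/-!
# The case analysis for one triple, all heights, in terms of the two lightest members
-/

open Finset Filter Topology

namespace Pool.Agent.Lib.AbcB

open Pool.Agent.Lib.Pabc2 Pool.Agent.Lib.Pabc1 Pool.Agent.Lib.Pabc8 Pool.Agent.Lib.AbcL
open Pool.Agent.Lib.Pabc14

/-- The case analysis. -/
theorem casesV {t : ℕ × ℕ} (hI : IsT t) (hbig : 200 ≤ ht t) {n : ℕ} (hn : 2 ≤ n)
    (hrd : rd t ≤ n) {v : ℝ} (hv : ∃ l : Fin 3, tw t - wt t l ≤ 2 * v * Real.log n) {s e e' : ℝ} (hs : 0 < s) (hs1 : s ≤ 1) (he : 0 < e) (he1 : e ≤ 1 / 4)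
    (he'1 : e' ≤ 1 / 4) {k : ℕ} (hk : 1 / s ≤ k) (hk2 : (k : ℝ) ≤ 2 / s)
    (hj : ∀ l : Fin 3, ∑ p ∈ sml t (s * Real.log n) l, u t p ≤ e' ∨
      e < ∑ p ∈ sml t (s * Real.log n) l, u t p) :
    HasQ n (s * e / 4) (2 * s) v t ∨ HasK n (s * e / 4) (v + 2 * s) (2 * e') k t ∨
      HasInf (2 * e') k t := by
  classical
  set x := Real.log (n : ℝ) with hx
  have hx0 : 0 < x := Real.log_pos (by exact_mod_cast hn)
  have htw : tw t ≤ x := tw_le hrd
  have hn1 : 1 ≤ n := by omega
  have hH := ht_pos hI
  set d := s * e / 4 with hd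
  have hd0 : 0 < d := by positivity
  have hbc : ((big t (s * x)).card : ℝ) ≤ k := by
    have h1 := big_card_le (z := s * x) htw
    refine le_trans ?_ hk
    rw [le_div_iff₀ hs]
    have h2 : ((big t (s * x)).card : ℝ) * s * x ≤ 1 * x := by linarith
    exact le_of_mul_le_mul_right h2 hx0
  have hHcard : ∀ S : Finset ℕ, (big t (s * x) \ S).card ≤ k := by
    intro S
    have h1 : ((big t (s * x) \ S).card : ℝ) ≤ k :=
      le_trans (by exact_mod_cast Finset.card_le_card Finset.sdiff_subset) hbc
    exact_mod_cast h1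
  have hHsub : ∀ S : Finset ℕ, big t (s * x) \ S ⊆ (N t).primeFactors \ S := fun S =>
    Finset.sdiff_subset_sdiff (Finset.filter_subset _ _) (Finset.Subset.refl _)
  have hwtle : ∀ i, wt t i ≤ tw t := fun i => by
    unfold wt tw
    exact Finset.sum_le_sum_of_subset_of_nonneg (Finset.filter_subset _ _)
      (fun p _ _ => Real.log_natCast_nonneg p)
  -- the label of maximal weight
  obtain ⟨m, -, hmax⟩ := Finset.exists_max_image (Finset.univ : Finset (Fin 3)) (wt t)
    Finset.univ_nonempty
  have hmax' : ∀ i, wt t i ≤ wt t m := fun i => hmax i (Finset.mem_univ i)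
  obtain ⟨i, j, hij, him, hjm⟩ : ∃ i j : Fin 3, i ≠ j ∧ i ≠ m ∧ j ≠ m := by
    have hm3 : m = 0 ∨ m = 1 ∨ m = 2 := by omega
    rcases hm3 with rfl | rfl | rfl
    · exact ⟨1, 2, by decide, by decide, by decide⟩
    · exact ⟨0, 2, by decide, by decide, by decide⟩
    · exact ⟨0, 1, by decide, by decide, by decide⟩
  have hsum := wt_sum t hij him hjm
  have hv2 : tw t - wt t m ≤ 2 * v * x := by
    obtain ⟨l, hl⟩ := hv
    have h1 := hmax' l
    linarith
  have hv0 : 0 ≤ v := by
    have h1 := hwtle m
    have h2 : 0 ≤ 2 * v * x := by linarith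
    by_contra h3
    push Not at h3
    have h4 : 2 * v * x < 0 := by nlinarith
    linarith
  by_cases hm : e < ∑ p ∈ sml t (s * x) m, u t p
  · -- a modulus in the member of maximal weight
    left
    obtain ⟨Q, hQ, hQl, hQw, hQm⟩ := cheap_small hI hx0 hs hs1 htw hm
    refine ⟨m, Q, hQ, hQl, prod_le_rpow hQ hn1 hQw, ?_, ?_⟩
    · have h1 : d ≤ s * e / 2 := by
        rw [hd]
        have : 0 < s * e := by positivity
        linarith
      linarith
    · rw [← hx]
      exact hv2
  have hm' : ∑ p ∈ sml t (s * x) m, u t p ≤ e' := by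
    rcases hj m with h | h
    · exact h
    · exact absurd h hm
  -- a lemma for two spread labels
  have two : ∀ i j : Fin 3, i ≠ j → i ≠ m → j ≠ m → wt t i ≤ wt t j →
      e < ∑ p ∈ sml t (s * x) j, u t p → HasK n d (v + 2 * s) (2 * e') k t := by
    intro i j hij him hjm hwij hj'
    obtain ⟨Q, hQ, hQl, hQw, hQm⟩ := cheap_small hI hx0 hs hs1 htw hj'
    have hsum := wt_sum t hij him hjm
    have hwi3 : wt t i ≤ v * x := by
      linarith
    set Pi := (N t).primeFactors.filter (fun p => lab t p = i) with hPi
    have hS : Pi ∪ Q ⊆ (N t).primeFactors := Finset.union_subset (Finset.filter_subset _ _) hQ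
    refine ⟨Pi ∪ Q, hS, j, prod_le_rpow hS hn1 ?_, ?_, big t (s * x) \ (Pi ∪ Q), hHsub _,
      hHcard _, ?_⟩
    · have h1 : ∑ p ∈ Pi ∪ Q, Real.log (p : ℝ) ≤
          ∑ p ∈ Pi, Real.log (p : ℝ) + ∑ p ∈ Q, Real.log (p : ℝ) := by
        have h2 := Finset.sum_union_inter (s₁ := Pi) (s₂ := Q) (f := fun p : ℕ => Real.log (p : ℝ))
        have h3 : 0 ≤ ∑ p ∈ Pi ∩ Q, Real.log (p : ℝ) :=
          Finset.sum_nonneg (fun p _ => Real.log_natCast_nonneg p)
        linarith
      have h2 : ∑ p ∈ Pi, Real.log (p : ℝ) = wt t i := rfl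
      linarith
    · have h1 : Q ⊆ (Pi ∪ Q).filter (fun p => lab t p = j) := by
        intro p hp
        rw [Finset.mem_filter]
        exact ⟨Finset.mem_union_right _ hp, hQl p hp⟩
      have h2 := Finset.sum_le_sum_of_subset_of_nonneg h1 (f := u t) (fun p _ _ => u_nonneg hI p)
      have h3 : 0 < s * e := by positivity
      linarith
    · refine (rest_le hI (z := s * x) (Pi ∪ Q) him (l := j) hij hjm.symm).trans ?_
      have h1 : sml t (s * x) i \ (Pi ∪ Q) = ∅ := by
        rw [Finset.sdiff_eq_empty_iff_subset]
        intro p hp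
        have hp' := Finset.mem_filter.mp hp
        exact Finset.mem_union_left _ (Finset.mem_filter.mpr ⟨hp'.1, hp'.2.1⟩)
      rw [h1, Finset.sum_empty, zero_add]
      have h2 := sdiff_sum_le hI (sml t (s * x) m) (Pi ∪ Q)
      have h3 : 0 ≤ ∑ p ∈ sml t (s * x) m, u t p := Finset.sum_nonneg (fun p _ => u_nonneg hI p)
      linarith
  -- a lemma for one spread label
  have one : ∀ i j : Fin 3, i ≠ j → i ≠ m → j ≠ m →
      e < ∑ p ∈ sml t (s * x) i, u t p → ∑ p ∈ sml t (s * x) j, u t p ≤ e' →
      HasK n d (v + 2 * s) (2 * e') k t := by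
    intro i j hij him hjm hi' hj'
    obtain ⟨Q, hQ, hQl, hQw, hQm⟩ := cheap_small hI hx0 hs hs1 htw hi'
    refine ⟨Q, hQ, i, prod_le_rpow hQ hn1 (by nlinarith), ?_, big t (s * x) \ Q, hHsub _,
      hHcard _, ?_⟩
    · rw [Finset.filter_true_of_mem hQl]
      have h3 : 0 < s * e := by positivity
      linarith
    · refine (rest_le hI (z := s * x) Q hjm hij.symm him.symm).trans ?_
      have h2 := sdiff_sum_le hI (sml t (s * x) m) Q
      have h3 := sdiff_sum_le hI (sml t (s * x) j) Q
      linarith
  rcases hj i with hi0 | hi1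
  · rcases hj j with hj0 | hj1
    · -- no spread label
      have hall : ∀ l : Fin 3, ∑ p ∈ sml t (s * x) l, u t p ≤ e' := by
        intro l
        have : l = i ∨ l = j ∨ l = m := by omega
        rcases this with rfl | rfl | rfl
        · exact hi0
        · exact hj0
        · exact hm'
      by_cases hal : Real.log t.1 ≤ ht t / 2
      · right; right
        refine ⟨hal, big t (s * x), Finset.filter_subset _ _, by exact_mod_cast hbc, ?_⟩
        have h1 := rest_le hI (z := s * x) ∅ (i := 1) (j := 2) (l := 0) (by decide) (by decide)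
          (by decide)
        rw [Finset.sdiff_empty, Finset.empty_union, Finset.sdiff_empty, Finset.sdiff_empty] at h1
        have h2 := hall 1
        have h3 := hall 2
        linarith
      · push Not at hal
        right; left
        have hms : ∀ l : Fin 3, 1 / 2 ≤ ms t l := by
          intro l
          by_cases hl : (0 : Fin 3) = l
          · subst hl
            unfold ms
            rw [sum_lab_eq hI 0, le_div_iff₀ hH]
            have : comp t 0 = t.1 := by simp [comp]
            rw [this]
            linarith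
          · have := ms_ge hI hbig hl
            linarith
        have hkpos : (0 : ℝ) < k := lt_of_lt_of_le (by positivity) hk
        have hq : ∀ l : Fin 3, ∃ q ∈ (N t).primeFactors, lab t q = l ∧ d ≤ u t q := by
          intro l
          obtain ⟨q, hq1, hq2, hq3⟩ := massive (t := t) hbc (hms l) (hall l) (by linarith)
          refine ⟨q, hq1, hq2, ?_⟩
          have h1 : 1 / 4 ≤ (k : ℝ) * u t q := by linarith
          have h2 : (k : ℝ) * u t q ≤ 2 / s * u t q :=
            mul_le_mul_of_nonneg_right hk2 (u_nonneg hI q)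
          have h3 : 1 / 4 * s ≤ 2 * u t q := by
            have h4 : 1 / 4 ≤ 2 / s * u t q := by linarith
            have h5 := mul_le_mul_of_nonneg_right h4 hs.le
            have h6 : 2 / s * u t q * s = 2 * u t q := by field_simp
            linarith
          have h7 : s * e ≤ s * (1 / 4) := mul_le_mul_of_nonneg_left he1 hs.le
          rw [hd]
          linarith
        choose q hqN hql hqd using hq
        -- the lightest of the three primes
        obtain ⟨l, -, hmin⟩ := Finset.exists_min_image (Finset.univ : Finset (Fin 3))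
          (fun l => Real.log (q l : ℝ)) Finset.univ_nonempty
        have hqw : ∀ a : Fin 3, Real.log (q a : ℝ) ≤ wt t a := by
          intro a
          unfold wt
          exact Finset.single_le_sum (f := fun p : ℕ => Real.log (p : ℝ))
            (fun p _ => Real.log_natCast_nonneg p)
            (Finset.mem_filter.mpr ⟨hqN a, hql a⟩)
        have hl3 : Real.log (q l : ℝ) ≤ v * x := by
          have h1 := hmin i (Finset.mem_univ i)
          have h2 := hmin j (Finset.mem_univ j)
          have h3 := hqw i
          have h4 := hqw j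
          linarith
        have hS : ({q l} : Finset ℕ) ⊆ (N t).primeFactors :=
          Finset.singleton_subset_iff.mpr (hqN l)
        obtain ⟨a, b, hab, hal', hbl'⟩ : ∃ a b : Fin 3, a ≠ b ∧ a ≠ l ∧ b ≠ l := by
          have hm3 : l = 0 ∨ l = 1 ∨ l = 2 := by omega
          rcases hm3 with rfl | rfl | rfl
          · exact ⟨1, 2, by decide, by decide, by decide⟩
          · exact ⟨0, 2, by decide, by decide, by decide⟩
          · exact ⟨0, 1, by decide, by decide, by decide⟩
        refine ⟨{q l}, hS, l, prod_le_rpow hS hn1 ?_, ?_, big t (s * x) \ {q l}, hHsub _,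
          hHcard _, ?_⟩
        · rw [Finset.sum_singleton]
          nlinarith
        · rw [Finset.filter_true_of_mem (by
            intro p hp
            rw [Finset.mem_singleton] at hp
            rw [hp]
            exact hql l), Finset.sum_singleton]
          exact hqd l
        · refine (rest_le hI (z := s * x) {q l} hab hal' hbl').trans ?_
          have h2 := sdiff_sum_le hI (sml t (s * x) a) {q l}
          have h3 := sdiff_sum_le hI (sml t (s * x) b) {q l}
          have h4 := hall a
          have h5 := hall b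
          linarith
    · exact Or.inr (Or.inl (one j i hij.symm hjm him hj1 hi0))
  · rcases hj j with hj0 | hj1
    · exact Or.inr (Or.inl (one i j hij him hjm hi1 hj0))
    · rcases le_total (wt t i) (wt t j) with h | h
      · exact Or.inr (Or.inl (two i j hij him hjm h hj1))
      · exact Or.inr (Or.inl (two j i hij.symm hjm him h hi1))

end Pool.Agent.Lib.AbcB
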