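import Pool.Agent.Lib.AbcB.TallV
import Pool.Agent.Lib.Pabc10.BoxMain

/-!
# Uniformity in the weight of the two lightest members
-/

open Finset Filter Topology

namespace Pool.Agent.Lib.AbcB

open Pool.Agent.Lib.Pabc2 Pool.Agent.Lib.Pabc1 Pool.Agent.Lib.Pabc8 Pool.Agent.Lib.AbcL
open Pool.Agent.Lib.Pabc14

/-- The weight of all primes of a triple. -/
theorem tw_sub_le {t : ℕ × ℕ} {n : ℕ} (hrd : rd t ≤ n) (l : Fin 3) :
    tw t - wt t l ≤ Real.log n := by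
  have h1 := tw_le hrd
  have h2 := wt_nonneg t l
  linarith

/-- The grid point above `v`. -/
theorem grid_point {v δ : ℝ} (hδ : 0 < δ) (hv0 : 0 ≤ v) (hv1 : v ≤ 1 / 2) {J : ℕ}
    (hJ : 1 / (2 * δ) ≤ J) : ∃ j ∈ Finset.range (J + 2), v ≤ j * δ ∧ j * δ ≤ v + δ := by
  have h1 : v / δ ≤ ⌈v / δ⌉₊ := Nat.le_ceil _
  have h2 : (⌈v / δ⌉₊ : ℝ) < v / δ + 1 := Nat.ceil_lt_add_one (by positivity)
  refine ⟨⌈v / δ⌉₊, ?_, ?_, ?_⟩
  · rw [Finset.mem_range]
    have h3 : v / δ ≤ 1 / (2 * δ) := by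
      rw [div_le_div_iff₀ hδ (by positivity)]
      nlinarith
    have h4 : (⌈v / δ⌉₊ : ℝ) < (J : ℝ) + 1 := by linarith
    have h5 : ⌈v / δ⌉₊ < J + 1 := by exact_mod_cast h4
    omega
  · rwa [div_le_iff₀ hδ] at h1
  · have h3 : (⌈v / δ⌉₊ : ℝ) ≤ v / δ + 1 := h2.le
    calc (⌈v / δ⌉₊ : ℝ) * δ ≤ (v / δ + 1) * δ := mul_le_mul_of_nonneg_right h3 hδ.le
      _ = v + δ := by field_simp

/-- If `2 v log n ≤ log D` then `n ^ v ≤ sqrt D`. -/
theorem rpow_le_sqrt {n D v : ℝ} (hn : 0 < n) (hD : 0 < D)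
    (h : 2 * v * Real.log n ≤ Real.log D) : n ^ v ≤ Real.sqrt D := by
  rw [Real.sqrt_eq_rpow, Real.rpow_def_of_pos hn, Real.rpow_def_of_pos hD, Real.exp_le_exp]
  linarith

/-- The triples of radical at most `n` and height at least `M0 log n`, two members of which have
together radical at most `D`: at most `sqrt D * n ^ ε`, uniformly in `D`. -/
theorem tall_grid (ε : ℝ) (hε : 0 < ε) : ∃ M0 : ℝ, 1 ≤ M0 ∧ ∀ᶠ n : ℕ in atTop,
    ∀ (D : ℝ) (T : Finset (ℕ × ℕ)), 1 ≤ D →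
      (∀ t ∈ T, IsT t ∧ rd t ≤ n ∧ M0 * Real.log n ≤ ht t ∧
        ∃ l : Fin 3, tw t - wt t l ≤ Real.log D) →
      (T.card : ℝ) ≤ Real.sqrt D * (n : ℝ) ^ ε := by
  classical
  obtain ⟨δ, hδ⟩ : ∃ δ : ℝ, δ = ε / 4 := ⟨_, rfl⟩
  have hδ0 : 0 < δ := by rw [hδ]; positivity
  obtain ⟨J, hJ⟩ := exists_nat_ge (1 / (2 * δ))
  choose M hM1 hM2 using fun j : ℕ => tall_v (rootK 3 (by norm_num)) (rootInf 3 (by norm_num))
    ((j : ℝ) * δ) (by positivity) (ε / 2) (by positivity)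
  obtain ⟨M0, hM0⟩ : ∃ M0 : ℝ, M0 = 1 + ∑ j ∈ Finset.range (J + 2), M j := ⟨_, rfl⟩
  have hMpos : ∀ j, 0 ≤ M j := fun j => zero_le_one.trans (hM1 j)
  have hMle : ∀ j ∈ Finset.range (J + 2), M j ≤ M0 := by
    intro j hj
    have h1 := Finset.single_le_sum (f := M) (fun j _ => hMpos j) hj
    rw [hM0]
    linarith
  have hM01 : 1 ≤ M0 := by
    have h1 : 0 ≤ ∑ j ∈ Finset.range (J + 2), M j := Finset.sum_nonneg (fun j _ => hMpos j)
    rw [hM0]
    linarith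
  refine ⟨M0, hM01, ?_⟩
  have hall := (Filter.eventually_all_finset (Finset.range (J + 2))).mpr (fun j _ => hM2 j)
  filter_upwards [hall, eventually_ge_atTop 2] with n hn hn2 D T hD hT
  have hn1 : 1 ≤ n := by omega
  have hn1' : (1 : ℝ) ≤ n := by exact_mod_cast hn1
  have hn0 : (0 : ℝ) < n := by linarith
  have hx0 : 0 < Real.log (n : ℝ) := Real.log_pos (by exact_mod_cast hn2)
  have hy0 : 0 ≤ Real.log D := Real.log_nonneg hD
  obtain ⟨v, hv⟩ : ∃ v : ℝ, v = min (Real.log D / (2 * Real.log n)) (1 / 2) := ⟨_, rfl⟩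
  have hv0 : 0 ≤ v := by
    rw [hv]
    exact le_min (by positivity) (by norm_num)
  have hv1 : v ≤ 1 / 2 := by
    rw [hv]
    exact min_le_right _ _
  have hv2 : 2 * v * Real.log n ≤ Real.log D := by
    have h1 : v ≤ Real.log D / (2 * Real.log n) := by
      rw [hv]
      exact min_le_left _ _
    rw [le_div_iff₀ (by positivity)] at h1
    linarith
  have hv3 : min (Real.log D) (Real.log n) ≤ 2 * v * Real.log n := by
    rw [hv]
    rcases min_cases (Real.log D / (2 * Real.log n)) (1 / 2) with ⟨h, _⟩ | ⟨h, _⟩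
    · rw [h]
      refine (min_le_left _ _).trans (le_of_eq ?_)
      field_simp
    · rw [h]
      refine (min_le_right _ _).trans (le_of_eq ?_)
      ring
  obtain ⟨j, hj, hj1, hj2⟩ := grid_point hδ0 hv0 hv1 hJ
  have hcard := hn j hj T (by
    intro t ht'
    obtain ⟨h1, h2, h3, l, h4⟩ := hT t ht'
    refine ⟨h1, h2, le_trans (mul_le_mul_of_nonneg_right (hMle j hj) hx0.le) h3, l, ?_⟩
    have h5 := tw_sub_le h2 l
    have h6 : tw t - wt t l ≤ min (Real.log D) (Real.log n) := le_min h4 h5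
    have h7 : 2 * v * Real.log n ≤ 2 * ((j : ℝ) * δ) * Real.log n :=
      mul_le_mul_of_nonneg_right (by linarith) hx0.le
    linarith)
  refine hcard.trans ?_
  have h8 := rpow_le_sqrt hn0 (by linarith : (0 : ℝ) < D) hv2
  calc (n : ℝ) ^ ((j : ℝ) * δ + ε / 2) ≤ (n : ℝ) ^ (v + ε) := by
        apply Real.rpow_le_rpow_of_exponent_le hn1'
        rw [hδ] at hj2 ⊢
        linarith
    _ = (n : ℝ) ^ v * (n : ℝ) ^ ε := Real.rpow_add hn0 _ _
    _ ≤ Real.sqrt D * (n : ℝ) ^ ε := mul_le_mul_of_nonneg_right h8 (by positivity)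

end Pool.Agent.Lib.AbcB
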