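import Pool.Agent.Lib.AbcB.Grid

/-!
# Violators relative to the radical of the triple itself
-/

open Finset Filter Topology

namespace Pool.Agent.Lib.AbcB

open Pool.Agent.Lib.Pabc2 Pool.Agent.Lib.Pabc1 Pool.Agent.Lib.Pabc8 Pool.Agent.Lib.AbcL
open Pool.Agent.Lib.Pabc14

/-- The number of dyadic ranges. -/
theorem log2_le_rpow (ε : ℝ) (hε : 0 < ε) (n : ℕ) (hn : 1 ≤ n) :
    ((Nat.log 2 n + 1 : ℕ) : ℝ) ≤ (2 / ε + 1) * (n : ℝ) ^ ε := by
  have hn1 : (1 : ℝ) ≤ n := by exact_mod_cast hn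
  have hn0 : (0 : ℝ) < n := by linarith
  have h1 : (Nat.log 2 n : ℝ) ≤ 2 * Real.log n := by
    have h2 : (Nat.log 2 n : ℝ) * Real.log 2 ≤ Real.log n := by
      rw [← Real.log_pow]
      apply Real.log_le_log (by positivity)
      have h3 : 2 ^ Nat.log 2 n ≤ n := Nat.pow_log_le_self 2 (by omega)
      exact_mod_cast h3
    have h4 : (1 / 2 : ℝ) ≤ Real.log 2 := by
      have := Real.log_two_gt_d9
      linarith
    have h5 : (Nat.log 2 n : ℝ) * (1 / 2) ≤ (Nat.log 2 n : ℝ) * Real.log 2 :=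
      mul_le_mul_of_nonneg_left h4 (Nat.cast_nonneg _)
    linarith
  have h6 : Real.log (n : ℝ) ≤ (n : ℝ) ^ ε / ε := Real.log_le_rpow_div hn0.le hε
  have h7 : (1 : ℝ) ≤ (n : ℝ) ^ ε := Real.one_le_rpow hn1 hε.le
  push_cast
  calc (Nat.log 2 n : ℝ) + 1 ≤ 2 * ((n : ℝ) ^ ε / ε) + (n : ℝ) ^ ε := by linarith
    _ = (2 / ε + 1) * (n : ℝ) ^ ε := by ring

/-- All triples of radical at most `N0` with `c ≥ rad ^ M`, two members of which have together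
radical at most `D`. -/
theorem viol_isT (ε : ℝ) (hε : 0 < ε) : ∃ K M : ℝ, 1 ≤ K ∧ 1 ≤ M ∧
    ∀ (N0 : ℕ) (D : ℝ) (T : Finset (ℕ × ℕ)), 1 ≤ N0 → 1 ≤ D →
      (∀ t ∈ T, IsT t ∧ rd t ≤ N0 ∧ M * Real.log (rd t) ≤ ht t ∧
        ∃ l : Fin 3, tw t - wt t l ≤ Real.log D) →
      (T.card : ℝ) ≤ K * Real.sqrt D * (N0 : ℝ) ^ ε := by
  classical
  obtain ⟨M0, hM01, hM0⟩ := tall_grid (ε / 2) (by positivity)
  obtain ⟨n0, hn0⟩ := hM0.exists_forall_of_atTop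
  obtain ⟨n1, hn1⟩ : ∃ n1, n1 = max n0 4 := ⟨_, rfl⟩
  obtain ⟨K0, hK0⟩ : ∃ K0 : ℝ, K0 = ((Pabc10.finite_rd n1).toFinset.card : ℝ) := ⟨_, rfl⟩
  have hK00 : 0 ≤ K0 := by rw [hK0]; exact Nat.cast_nonneg _
  obtain ⟨K1, hK1⟩ : ∃ K1 : ℝ, K1 = (2 / (ε / 2) + 1) * (2 : ℝ) ^ (ε / 2) := ⟨_, rfl⟩
  have hK10 : 0 ≤ K1 := by rw [hK1]; positivity
  refine ⟨K0 + K1 + 1, 2 * M0, by linarith, by linarith, ?_⟩
  intro N0 D T hN0 hD hT
  have hN0' : (1 : ℝ) ≤ N0 := by exact_mod_cast hN0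
  have hN00 : (0 : ℝ) < N0 := by linarith
  have hsD : 1 ≤ Real.sqrt D := Real.one_le_sqrt.2 hD
  obtain ⟨TT, hTT⟩ : ∃ TT : ℕ → Finset (ℕ × ℕ), TT = fun k => T.filter (fun t =>
    n1 < rd t ∧ Nat.log 2 (rd t) = k) := ⟨_, rfl⟩
  have hcover : T ⊆ (Pabc10.finite_rd n1).toFinset ∪
      (Finset.range (Nat.log 2 N0 + 1)).biUnion TT := by
    intro t ht'
    obtain ⟨h1, h2, h3, h4⟩ := hT t ht'
    rw [Finset.mem_union]
    rcases Nat.lt_or_ge n1 (rd t) with h | h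
    · right
      rw [Finset.mem_biUnion]
      refine ⟨Nat.log 2 (rd t), ?_, ?_⟩
      · rw [Finset.mem_range, Nat.lt_succ_iff]
        exact Nat.log_mono_right h2
      · rw [hTT]
        exact Finset.mem_filter.mpr ⟨ht', h, rfl⟩
    · left
      rw [Set.Finite.mem_toFinset]
      exact ⟨h1, h⟩
  have hTk : ∀ k ∈ Finset.range (Nat.log 2 N0 + 1),
      ((TT k).card : ℝ) ≤ Real.sqrt D * ((2 : ℝ) ^ (ε / 2) * (N0 : ℝ) ^ (ε / 2)) := by
    intro k hk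
    rcases (TT k).eq_empty_or_nonempty with he | ⟨t0, ht0⟩
    · rw [he, Finset.card_empty, Nat.cast_zero]
      positivity
    have hmem : ∀ t ∈ TT k, t ∈ T ∧ n1 < rd t ∧ rd t ≤ 2 ^ (k + 1) ∧ 2 ^ (k + 1) ≤ 2 * rd t := by
      intro t ht'
      rw [hTT] at ht'
      obtain ⟨h1, h2, h3⟩ := Finset.mem_filter.mp ht'
      refine ⟨h1, h2, ?_, ?_⟩
      · rw [← h3]
        exact (Nat.lt_pow_succ_log_self (by norm_num) _).le
      · rw [← h3, pow_succ, mul_comm]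
        exact Nat.mul_le_mul_left _ (Nat.pow_log_le_self 2 (by
          have := rd_pos t
          omega))
    obtain ⟨a1, a2, a3, a4⟩ := hmem t0 ht0
    have hbig : n0 ≤ 2 ^ (k + 1) := by
      have : n0 ≤ n1 := by rw [hn1]; exact le_max_left _ _
      omega
    have hN2 : 2 ^ (k + 1) ≤ 2 * N0 := a4.trans (Nat.mul_le_mul_left _ (hT t0 a1).2.1)
    have h5 := hn0 (2 ^ (k + 1)) hbig D (TT k) hD (by
      intro t ht'
      obtain ⟨b1, b2, b3, b4⟩ := hmem t ht'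
      obtain ⟨c1, c2, c3, c4⟩ := hT t b1
      refine ⟨c1, b3, ?_, c4⟩
      have h4 : 4 ≤ n1 := by rw [hn1]; exact le_max_right _ _
      have hr2 : (2 : ℝ) ≤ rd t := by
        have : 2 ≤ rd t := by omega
        exact_mod_cast this
      have hr0 : (0 : ℝ) < rd t := by linarith
      have h6 : Real.log ((2 ^ (k + 1) : ℕ) : ℝ) ≤ 2 * Real.log (rd t) := by
        have h7 : ((2 ^ (k + 1) : ℕ) : ℝ) ≤ (rd t : ℝ) * rd t := by
          have h8 : ((2 ^ (k + 1) : ℕ) : ℝ) ≤ 2 * (rd t : ℝ) := by exact_mod_cast b4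
          nlinarith
        have h9 : (0 : ℝ) < ((2 ^ (k + 1) : ℕ) : ℝ) := by positivity
        have h10 := Real.log_le_log h9 h7
        rw [Real.log_mul hr0.ne' hr0.ne'] at h10
        linarith
      calc M0 * Real.log ((2 ^ (k + 1) : ℕ) : ℝ) ≤ M0 * (2 * Real.log (rd t)) :=
            mul_le_mul_of_nonneg_left h6 (by linarith)
        _ = 2 * M0 * Real.log (rd t) := by ring
        _ ≤ ht t := c3)
    refine h5.trans (mul_le_mul_of_nonneg_left ?_ (Real.sqrt_nonneg _))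
    rw [← Real.mul_rpow (by norm_num) hN00.le]
    apply Real.rpow_le_rpow (by positivity) _ (by positivity)
    exact_mod_cast hN2
  have hlog := log2_le_rpow (ε / 2) (by positivity) N0 hN0
  have hNe : (1 : ℝ) ≤ (N0 : ℝ) ^ ε := Real.one_le_rpow hN0' hε.le
  have hsplit : (N0 : ℝ) ^ (ε / 2) * (N0 : ℝ) ^ (ε / 2) = (N0 : ℝ) ^ ε := by
    rw [← Real.rpow_add hN00]
    congr 1
    ring
  have hc1 : (T.card : ℝ) ≤ K0 + ∑ k ∈ Finset.range (Nat.log 2 N0 + 1), ((TT k).card : ℝ) := by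
    rw [hK0]
    have h1 := (Finset.card_le_card hcover).trans ((Finset.card_union_le _ _).trans
      (Nat.add_le_add_left Finset.card_biUnion_le _))
    exact_mod_cast h1
  have hc2 : ∑ k ∈ Finset.range (Nat.log 2 N0 + 1), ((TT k).card : ℝ) ≤
      K1 * (Real.sqrt D * (N0 : ℝ) ^ ε) := by
    calc ∑ k ∈ Finset.range (Nat.log 2 N0 + 1), ((TT k).card : ℝ)
        ≤ ∑ _k ∈ Finset.range (Nat.log 2 N0 + 1),
            Real.sqrt D * ((2 : ℝ) ^ (ε / 2) * (N0 : ℝ) ^ (ε / 2)) := Finset.sum_le_sum hTk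
      _ = ((Nat.log 2 N0 + 1 : ℕ) : ℝ) *
            (Real.sqrt D * ((2 : ℝ) ^ (ε / 2) * (N0 : ℝ) ^ (ε / 2))) := by
          rw [Finset.sum_const, nsmul_eq_mul, Finset.card_range]
      _ ≤ ((2 / (ε / 2) + 1) * (N0 : ℝ) ^ (ε / 2)) *
            (Real.sqrt D * ((2 : ℝ) ^ (ε / 2) * (N0 : ℝ) ^ (ε / 2))) :=
          mul_le_mul_of_nonneg_right hlog (by positivity)
      _ = K1 * (Real.sqrt D * ((N0 : ℝ) ^ (ε / 2) * (N0 : ℝ) ^ (ε / 2))) := by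
          rw [hK1]
          ring
      _ = K1 * (Real.sqrt D * (N0 : ℝ) ^ ε) := by rw [hsplit]
  have hc3 : (1 : ℝ) ≤ Real.sqrt D * (N0 : ℝ) ^ ε := by
    calc (1 : ℝ) = 1 * 1 := by ring
      _ ≤ Real.sqrt D * (N0 : ℝ) ^ ε := mul_le_mul hsD hNe zero_le_one (by linarith)
  calc (T.card : ℝ) ≤ K0 + K1 * (Real.sqrt D * (N0 : ℝ) ^ ε) := by linarith
    _ ≤ (K0 + K1 + 1) * (Real.sqrt D * (N0 : ℝ) ^ ε) := by nlinarith
    _ = (K0 + K1 + 1) * Real.sqrt D * (N0 : ℝ) ^ ε := by ring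

end Pool.Agent.Lib.AbcB
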